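import Mathlib
import Pool.Agent.W355.FR.Stm

/-! Project FR (owner helper355), part CNL: lower bound for the conductor. -/

set_option autoImplicit false

namespace Pool.Agent.W378.FR.Cnl

open Polynomial
open Pool.Agent.W355.FR

lemma hv_add (D : ℕ) (f g : ℤ[X]) (a b : ℤ) : hv D (f + g) a b = hv D f a b + hv D g a b := by
  unfold hv
  rw [← Finset.sum_add_distrib]
  refine Finset.sum_congr rfl fun i _ => ?_
  rw [coeff_add]
  ring

lemma hv_C_mul (D : ℕ) (c : ℤ) (f : ℤ[X]) (a b : ℤ) : hv D (C c * f) a b = c * hv D f a b := by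
  unfold hv
  rw [Finset.mul_sum]
  refine Finset.sum_congr rfl fun i _ => ?_
  rw [coeff_C_mul]
  ring

lemma hv_disc (hHVM : P_HVM) (k : ℕ) (A B : ℤ[X]) (hA : A.natDegree ≤ 4 * k)
    (hB : B.natDegree ≤ 6 * k) (a b : ℤ) :
    hv (12 * k) (4 * A ^ 3 + 27 * B ^ 2) a b =
      4 * (hv (4 * k) A a b) ^ 3 + 27 * (hv (6 * k) B a b) ^ 2 := by
  have h1 : (4 * A ^ 3 + 27 * B ^ 2 : ℤ[X]) = C 4 * A ^ 3 + C 27 * B ^ 2 := by
    simp
  rw [h1, hv_add, hv_C_mul, hv_C_mul]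
  have h2 : hv (12 * k) (A ^ 3) a b = (hv (4 * k) A a b) ^ 3 := by
    have e1 : A ^ 3 = (A * A) * A := by ring
    have e2 : 12 * k = (4 * k + 4 * k) + 4 * k := by ring
    rw [e1, e2, hHVM (4 * k + 4 * k) (4 * k) (A * A) A (natDegree_mul_le.trans (by omega)) hA,
      hHVM (4 * k) (4 * k) A A hA hA]
    ring
  have h3 : hv (12 * k) (B ^ 2) a b = (hv (6 * k) B a b) ^ 2 := by
    have e1 : B ^ 2 = B * B := by ring
    have e2 : 12 * k = 6 * k + 6 * k := by ring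
    rw [e1, e2, hHVM (6 * k) (6 * k) B B hB hB]
    ring
  rw [h2, h3]

lemma wt_le (P A : ℤ[X]) : wt P A ≤ 2 := by
  unfold wt
  split_ifs <;> omega

/-- the core inequality at one point -/
lemma core (k : ℕ) (A B : ℤ[X]) (S : Finset ℤ[X]) (z : ℤ[X] → ℕ) (L ε ε' : ℝ) (a b : ℤ)
    (hL : 0 ≤ L) (hε' : 0 ≤ ε') (hεε : 2 * (S.card : ℝ) * ε' ≤ ε)
    (hz5 : ∀ P ∈ S, 5 ≤ z P)
    (hD : 4 * (hv (4 * k) A a b) ^ 3 + 27 * (hv (6 * k) B a b) ^ 2 ≠ 0)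
    (hLC : ∀ P ∈ S, ∀ p : ℕ, p.Prime → z P < p → (p : ℤ) ∣ hv P.natDegree P a b →
      (p : ℤ) ∣ 4 * (hv (4 * k) A a b) ^ 3 + 27 * (hv (6 * k) B a b) ^ 2 ∧
      wt P A ≤ condExp p (hv (4 * k) A a b) (hv (6 * k) B a b))
    (hR : ∀ P ∈ S, ∀ Q ∈ S, P ≠ Q → ∀ p : ℕ, p.Prime → z P < p →
      (p : ℤ) ∣ hv P.natDegree P a b → ¬ (p : ℤ) ∣ hv Q.natDegree Q a b)
    (hrad : ∀ P ∈ S, ((P.natDegree : ℝ) - ε') * L ≤
        ∑ p ∈ (hv P.natDegree P a b).natAbs.primeFactors.filter (fun p => z P < p),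
          Real.log p) :
    (((∑ P ∈ S, wt P A * P.natDegree : ℕ) : ℝ) - ε) * L ≤
      Real.log (cond6 (hv (4 * k) A a b) (hv (6 * k) B a b)) := by
  classical
  obtain ⟨a', ha'⟩ : ∃ a', a' = hv (4 * k) A a b := ⟨_, rfl⟩
  obtain ⟨b', hb'⟩ : ∃ b', b' = hv (6 * k) B a b := ⟨_, rfl⟩
  rw [← ha', ← hb'] at hD hLC ⊢
  obtain ⟨F, hF⟩ : ∃ F : ℤ[X] → Finset ℕ, F = fun P =>
    (hv P.natDegree P a b).natAbs.primeFactors.filter (fun p => z P < p) := ⟨_, rfl⟩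
  have hFm : ∀ P p, p ∈ F P → p.Prime ∧ (p : ℤ) ∣ hv P.natDegree P a b ∧ z P < p := by
    intro P p hp
    rw [hF] at hp
    obtain ⟨h1, h2⟩ := Finset.mem_filter.1 hp
    exact ⟨Nat.prime_of_mem_primeFactors h1,
      Int.natCast_dvd.2 (Nat.dvd_of_mem_primeFactors h1), h2⟩
  obtain ⟨G, hG⟩ : ∃ G : Finset ℕ, G =
    (4 * a' ^ 3 + 27 * b' ^ 2).natAbs.primeFactors.filter (fun p => 5 ≤ p) := ⟨_, rfl⟩
  have hcond : Real.log (cond6 a' b') = ∑ p ∈ G, (condExp p a' b' : ℝ) * Real.log p := by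
    unfold cond6
    rw [← hG]
    push_cast
    rw [Real.log_prod]
    · refine Finset.sum_congr rfl fun p _ => ?_
      rw [Real.log_pow]
    · intro p hp
      rw [hG] at hp
      have := (Nat.prime_of_mem_primeFactors (Finset.mem_filter.1 hp).1).pos
      positivity
  have hdisj : (S : Set ℤ[X]).PairwiseDisjoint F := by
    intro P hP Q hQ hPQ
    rw [Function.onFun, Finset.disjoint_left]
    intro p hp hq
    obtain ⟨h1, h2, h3⟩ := hFm P p hp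
    obtain ⟨_, h5, _⟩ := hFm Q p hq
    exact hR P hP Q hQ hPQ p h1 h3 h2 h5
  have hsub : S.biUnion F ⊆ G := by
    intro p hp
    obtain ⟨P, hP, hpP⟩ := Finset.mem_biUnion.1 hp
    obtain ⟨h1, h2, h3⟩ := hFm P p hpP
    rw [hG, Finset.mem_filter, Nat.mem_primeFactors]
    refine ⟨⟨h1, ?_, ?_⟩, ?_⟩
    · exact Int.natCast_dvd.1 (hLC P hP p h1 h3 h2).1
    · exact Int.natAbs_ne_zero.2 hD
    · exact (hz5 P hP).trans h3.le
  have hlogp : ∀ p : ℕ, 0 ≤ Real.log (p : ℝ) := fun p => Real.log_natCast_nonneg p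
  have step1 : ∑ P ∈ S, (wt P A : ℝ) * (((P.natDegree : ℝ) - ε') * L) ≤
      ∑ p ∈ G, (condExp p a' b' : ℝ) * Real.log p := by
    calc ∑ P ∈ S, (wt P A : ℝ) * (((P.natDegree : ℝ) - ε') * L) ≤
          ∑ P ∈ S, (wt P A : ℝ) * ∑ p ∈ F P, Real.log p := by
          refine Finset.sum_le_sum fun P hP => ?_
          refine mul_le_mul_of_nonneg_left ?_ (Nat.cast_nonneg _)
          rw [hF]
          exact hrad P hP
      _ = ∑ P ∈ S, ∑ p ∈ F P, (wt P A : ℝ) * Real.log p := by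
          refine Finset.sum_congr rfl fun P _ => ?_
          rw [Finset.mul_sum]
      _ ≤ ∑ P ∈ S, ∑ p ∈ F P, (condExp p a' b' : ℝ) * Real.log p := by
          refine Finset.sum_le_sum fun P hP => Finset.sum_le_sum fun p hp => ?_
          obtain ⟨h1, h2, h3⟩ := hFm P p hp
          refine mul_le_mul_of_nonneg_right ?_ (hlogp p)
          exact_mod_cast (hLC P hP p h1 h3 h2).2
      _ = ∑ p ∈ S.biUnion F, (condExp p a' b' : ℝ) * Real.log p :=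
          (Finset.sum_biUnion hdisj).symm
      _ ≤ ∑ p ∈ G, (condExp p a' b' : ℝ) * Real.log p :=
          Finset.sum_le_sum_of_subset_of_nonneg hsub
            (fun p _ _ => mul_nonneg (Nat.cast_nonneg _) (hlogp p))
  rw [hcond]
  refine le_trans ?_ step1
  have h6 : ∑ P ∈ S, (wt P A : ℝ) * (((P.natDegree : ℝ) - ε') * L) =
      ((∑ P ∈ S, wt P A * P.natDegree : ℕ) : ℝ) * L - (∑ P ∈ S, (wt P A : ℝ)) * (ε' * L) := by
    push_cast
    rw [Finset.sum_mul, Finset.sum_mul, ← Finset.sum_sub_distrib]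
    refine Finset.sum_congr rfl fun P _ => ?_
    ring
  rw [h6]
  have h7 : ∑ P ∈ S, (wt P A : ℝ) ≤ 2 * S.card := by
    calc ∑ P ∈ S, (wt P A : ℝ) ≤ ∑ P ∈ S, (2 : ℝ) :=
          Finset.sum_le_sum fun P _ => by exact_mod_cast wt_le P A
      _ = 2 * S.card := by rw [Finset.sum_const, nsmul_eq_mul]; ring
  have h8 : (∑ P ∈ S, (wt P A : ℝ)) * (ε' * L) ≤ ε * L := by
    calc (∑ P ∈ S, (wt P A : ℝ)) * (ε' * L) ≤ (2 * S.card) * (ε' * L) :=
          mul_le_mul_of_nonneg_right h7 (mul_nonneg hε' hL)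
      _ = (2 * S.card * ε') * L := by ring
      _ ≤ ε * L := mul_le_mul_of_nonneg_right hεε hL
  linarith

theorem cnl : P_CNL := by
  classical
  intro hHVM hRAD hLC hRES hZER k A B hA hB hA0 hB0 hD0 S hS hScop ε δ hε hδ
  obtain ⟨n, hn⟩ : ∃ n : ℝ, n = (S.card : ℝ) := ⟨_, rfl⟩
  have hn0 : 0 ≤ n := by
    rw [hn]
    positivity
  obtain ⟨ε', hε'⟩ : ∃ ε' : ℝ, ε' = ε / (2 * (n + 1)) := ⟨_, rfl⟩
  obtain ⟨δ', hδ'⟩ : ∃ δ' : ℝ, δ' = δ / (n + 1) := ⟨_, rfl⟩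
  have hε'0 : 0 < ε' := by
    rw [hε']
    positivity
  have hδ'0 : 0 < δ' := by
    rw [hδ']
    positivity
  have hεε : 2 * (S.card : ℝ) * ε' ≤ ε := by
    rw [← hn, hε', mul_div_assoc', div_le_iff₀ (by positivity)]
    nlinarith
  -- the bounds
  have hL : ∀ P ∈ S, ∃ z : ℕ, ∀ p : ℕ, p.Prime → z < p → ∀ a b : ℤ, Int.gcd a b = 1 →
      (p : ℤ) ∣ hv P.natDegree P a b → ¬ (p : ℤ) ^ 2 ∣ hv P.natDegree P a b →
      (p : ℤ) ∣ 4 * (hv (4 * k) A a b) ^ 3 + 27 * (hv (6 * k) B a b) ^ 2 ∧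
      wt P A ≤ condExp p (hv (4 * k) A a b) (hv (6 * k) B a b) := fun P hP =>
    hLC k A B P hA hB hA0 hB0 (hS P hP).1 (hS P hP).2.1 (hS P hP).2.2.2.1 (hS P hP).2.2.2.2
  choose! zL hzL using hL
  have hR : ∀ P ∈ S, ∀ Q ∈ S, ∃ z : ℕ, P ≠ Q → ∀ p : ℕ, p.Prime → z < p → ∀ a b : ℤ,
      Int.gcd a b = 1 → (p : ℤ) ∣ hv P.natDegree P a b → ¬ (p : ℤ) ∣ hv Q.natDegree Q a b := by
    intro P hP Q hQ
    by_cases hPQ : P = Q
    · exact ⟨0, fun h => absurd hPQ h⟩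
    · obtain ⟨z, hz⟩ := hRES hHVM Q.natDegree P Q (hS P hP).2.1 le_rfl (hScop P hP Q hQ hPQ)
      exact ⟨z, fun _ => hz⟩
  choose! zR hzR using hR
  obtain ⟨z1, hz1⟩ : ∃ z1 : ℕ, z1 = 5 + ∑ P ∈ S, zL P + ∑ P ∈ S, ∑ Q ∈ S, zR P Q := ⟨_, rfl⟩
  have hz1L : ∀ P ∈ S, zL P ≤ z1 := by
    intro P hP
    have := Finset.single_le_sum (f := zL) (fun _ _ => Nat.zero_le _) hP
    omega
  have hz1R : ∀ P ∈ S, ∀ Q ∈ S, zR P Q ≤ z1 := by
    intro P hP Q hQ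
    have h1 := Finset.single_le_sum (f := fun P => ∑ Q ∈ S, zR P Q) (fun _ _ => Nat.zero_le _) hP
    have h2 := Finset.single_le_sum (f := fun Q => zR P Q) (fun _ _ => Nat.zero_le _) hQ
    omega
  have hrad := fun (P : ℤ[X]) (hP : P ∈ S) =>
    hRAD P (hS P hP).1 (hS P hP).2.1 (hS P hP).2.2.1 ε' δ' hε'0 hδ'0 z1
  choose! zP hzP H0 hH0 using hrad
  obtain ⟨HZ, hHZ⟩ := hZER (12 * k) (4 * A ^ 3 + 27 * B ^ 2) hD0 (by
    have h4 : (4 * A ^ 3 + 27 * B ^ 2 : ℤ[X]) = C 4 * A ^ 3 + C 27 * B ^ 2 := by simp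
    rw [h4]
    refine (natDegree_add_le _ _).trans (max_le ?_ ?_)
    · refine (natDegree_C_mul_le _ _).trans ((natDegree_pow_le).trans ?_)
      omega
    · refine (natDegree_C_mul_le _ _).trans ((natDegree_pow_le).trans ?_)
      omega) δ' hδ'0
  refine ⟨1 + HZ + ∑ P ∈ S, H0 P, fun H hH s hs hbad => ?_⟩
  have hH1 : 1 ≤ H := by omega
  have hHZ' : HZ ≤ H := by omega
  have hH0' : ∀ P ∈ S, H0 P ≤ H := by
    intro P hP
    have := Finset.single_le_sum (f := H0) (fun _ _ => Nat.zero_le _) hP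
    omega
  have hH1R : (1 : ℝ) ≤ (H : ℝ) := by exact_mod_cast hH1
  have hlogH : 0 ≤ Real.log (H : ℝ) := Real.log_nonneg hH1R
  obtain ⟨Rp, hRp⟩ : ∃ Rp : ℤ[X] → ℤ × ℤ → Prop, Rp = fun P x =>
    (∀ p : ℕ, p.Prime → zP P < p → ¬ (p : ℤ) ^ 2 ∣ hv P.natDegree P x.1 x.2) ∧
      hv P.natDegree P x.1 x.2 ≠ 0 ∧
      ((P.natDegree : ℝ) - ε') * Real.log H ≤
        ∑ p ∈ (hv P.natDegree P x.1 x.2).natAbs.primeFactors.filter (fun p => zP P < p),
          Real.log p := ⟨_, rfl⟩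
  have hcP : ∀ P ∈ S, ((s.filter (fun x => ¬ Rp P x)).card : ℝ) ≤ δ' * (H : ℝ) ^ 2 := by
    intro P hP
    refine hH0 P hP H (hH0' P hP) _ ((Finset.filter_subset _ _).trans hs) (fun x hx => ?_)
    have := (Finset.mem_filter.1 hx).2
    rw [hRp] at this
    exact this
  have hcZ : ((s.filter (fun x => hv (12 * k) (4 * A ^ 3 + 27 * B ^ 2) x.1 x.2 = 0)).card : ℝ) ≤
      δ' * (H : ℝ) ^ 2 :=
    hHZ H hHZ' _ ((Finset.filter_subset _ _).trans hs) (fun x hx => (Finset.mem_filter.1 hx).2)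
  have hcov : s ⊆ s.filter (fun x => hv (12 * k) (4 * A ^ 3 + 27 * B ^ 2) x.1 x.2 = 0) ∪
      S.biUnion (fun P => s.filter (fun x => ¬ Rp P x)) := by
    intro x hx
    rw [Finset.mem_union, Finset.mem_biUnion]
    by_contra hcon
    rw [not_or] at hcon
    have hz : hv (12 * k) (4 * A ^ 3 + 27 * B ^ 2) x.1 x.2 ≠ 0 := fun h =>
      hcon.1 (Finset.mem_filter.2 ⟨hx, h⟩)
    have hr : ∀ P ∈ S, Rp P x := by
      intro P hP
      by_contra h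
      exact hcon.2 ⟨P, hP, Finset.mem_filter.2 ⟨hx, h⟩⟩
    rw [hv_disc hHVM k A B hA hB] at hz
    have hgcd : Int.gcd x.1 x.2 = 1 := (Finset.mem_filter.1 (hs hx)).2
    refine hbad x hx ⟨?_, hz⟩
    refine core k A B S zP (Real.log H) ε ε' x.1 x.2 hlogH hε'0.le hεε ?_ hz ?_ ?_ ?_
    · intro P hP
      have := hzP P hP
      omega
    · intro P hP p hp hzp hdiv
      have h1 := hr P hP
      rw [hRp] at h1
      have h2 := hz1L P hP
      have h3 := hzP P hP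
      exact hzL P hP p hp (by omega) x.1 x.2 hgcd hdiv (h1.1 p hp hzp)
    · intro P hP Q hQ hPQ p hp hzp hdiv
      have h2 := hz1R P hP Q hQ
      have h3 := hzP P hP
      exact hzR P hP Q hQ hPQ p hp (by omega) x.1 x.2 hgcd hdiv
    · intro P hP
      have h1 := hr P hP
      rw [hRp] at h1
      exact h1.2.2
  have hcard : (s.card : ℝ) ≤ δ' * (H : ℝ) ^ 2 + ∑ P ∈ S, δ' * (H : ℝ) ^ 2 := by
    have h1 : s.card ≤ (s.filter (fun x => hv (12 * k) (4 * A ^ 3 + 27 * B ^ 2) x.1 x.2 = 0)).card +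
        ∑ P ∈ S, (s.filter (fun x => ¬ Rp P x)).card :=
      (Finset.card_le_card hcov).trans ((Finset.card_union_le _ _).trans
        (Nat.add_le_add_left Finset.card_biUnion_le _))
    have h2 : (s.card : ℝ) ≤
        ((s.filter (fun x => hv (12 * k) (4 * A ^ 3 + 27 * B ^ 2) x.1 x.2 = 0)).card : ℝ) +
        ∑ P ∈ S, ((s.filter (fun x => ¬ Rp P x)).card : ℝ) := by exact_mod_cast h1
    refine h2.trans (add_le_add hcZ (Finset.sum_le_sum fun P hP => hcP P hP))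
  refine hcard.trans ?_
  rw [Finset.sum_const, nsmul_eq_mul, ← hn, hδ']
  have hne : n + 1 ≠ 0 := by linarith
  apply le_of_eq
  field_simp
  ring

end Pool.Agent.W378.FR.Cnl
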