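import Mathlib
import Pool.Agent.W355.FR.Stm

/-! Project FR (owner helper355), part FINL: the final assembly. -/

set_option autoImplicit false

namespace Pool.Agent.W378.FR

open Polynomial UpperHalfPlane
open Pool.Agent.W355.FR

lemma hv_bound (D : ℕ) (f : ℤ[X]) (H : ℕ) (a b : ℤ) (ha : |a| ≤ (H : ℤ)) (hb : |b| ≤ (H : ℤ)) :
    |hv D f a b| ≤ (∑ i ∈ Finset.range (D + 1), |f.coeff i|) * (H : ℤ) ^ D := by
  unfold hv
  refine (Finset.abs_sum_le_sum_abs _ _).trans ?_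
  rw [Finset.sum_mul]
  refine Finset.sum_le_sum (fun i hi => ?_)
  have hiD : i ≤ D := by
    have := Finset.mem_range.1 hi
    omega
  rw [abs_mul, abs_mul, abs_pow, abs_pow, mul_assoc]
  refine mul_le_mul_of_nonneg_left ?_ (abs_nonneg _)
  calc |a| ^ i * |b| ^ (D - i) ≤ (H : ℤ) ^ i * (H : ℤ) ^ (D - i) := by
        refine mul_le_mul (pow_le_pow_left₀ (abs_nonneg _) ha i)
          (pow_le_pow_left₀ (abs_nonneg _) hb _) (by positivity) (by positivity)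
    _ = (H : ℤ) ^ D := by rw [← pow_add]; congr 1; omega

theorem finl : P_FINL := by
  intro hMSZ hCN hUB k A B hk hA hB hdeg hP hW hle θ hθ δ hδ
  have hA0 : A ≠ 0 := by
    rintro rfl
    apply hW
    simp
  have hB0 : B ≠ 0 := by
    rintro rfl
    apply hW
    simp
  have hD0 : 4 * A ^ 3 + 27 * B ^ 2 ≠ 0 := by
    intro h
    rw [h, natDegree_zero] at hdeg
    omega
  obtain ⟨S, hS1, hS2, hS3⟩ := hMSZ k A B hA hB hdeg hD0 hP hW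
  obtain ⟨C, hC⟩ := hUB
  have hkR : (1 : ℝ) ≤ (k : ℝ) := by exact_mod_cast hk
  have h2k : (0 : ℝ) < 2 * (k : ℝ) + 1 := by linarith
  have hθ1 : (k : ℝ) < θ * (2 * k + 1) := by
    rwa [div_lt_iff₀ h2k] at hθ
  have hθ0 : 0 < θ := by
    by_contra hneg
    have : θ * (2 * k + 1) ≤ 0 := mul_nonpos_of_nonpos_of_nonneg (not_lt.1 hneg) h2k.le
    linarith
  obtain ⟨ε, hεdef⟩ : ∃ ε : ℝ, ε = (θ * (2 * k + 1) - k) / (2 * θ) := ⟨_, rfl⟩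
  have hε : 0 < ε := by
    rw [hεdef]
    exact div_pos (by linarith) (by linarith)
  have hθε : θ * ε = (θ * (2 * k + 1) - k) / 2 := by
    rw [hεdef]
    field_simp
  obtain ⟨H₁, hH₁⟩ := hCN k A B hA hB hA0 hB0 hD0 S
    (fun P hPS => ⟨(hS1 P hPS).1, (hS1 P hPS).2.1, hle P (hS1 P hPS).1 (hS1 P hPS).2.2,
      (hS1 P hPS).2.2, hP P (hS1 P hPS).1 (hS1 P hPS).2.1⟩) hS2 ε δ hε hδ
  obtain ⟨μ, hμdef⟩ : ∃ μ : ℝ, μ = θ * (2 * k + 1 - ε) - k := ⟨_, rfl⟩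
  have hμ : 0 < μ := by
    have : μ = (θ * (2 * k + 1) - k) / 2 := by
      rw [hμdef, mul_sub, hθε]
      ring
    rw [this]
    linarith
  obtain ⟨MA, hMA⟩ : ∃ MA : ℤ, MA = ∑ i ∈ Finset.range (4 * k + 1), |A.coeff i| := ⟨_, rfl⟩
  obtain ⟨MB, hMB⟩ : ∃ MB : ℤ, MB = ∑ i ∈ Finset.range (6 * k + 1), |B.coeff i| := ⟨_, rfl⟩
  have hMA0 : 0 ≤ MA := by
    rw [hMA]
    exact Finset.sum_nonneg (fun i _ => abs_nonneg _)
  have hMB0 : 0 ≤ MB := by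
    rw [hMB]
    exact Finset.sum_nonneg (fun i _ => abs_nonneg _)
  have hMAR : (0 : ℝ) ≤ (MA : ℝ) := by exact_mod_cast hMA0
  have hMBR : (0 : ℝ) ≤ (MB : ℝ) := by exact_mod_cast hMB0
  obtain ⟨K, hK⟩ : ∃ K : ℝ, K = 6912 * (MA : ℝ) ^ 3 + 27 * (MB : ℝ) ^ 2 + 1 := ⟨_, rfl⟩
  have hKpos : 0 < K := by
    rw [hK]
    positivity
  obtain ⟨C', hC'⟩ : ∃ C' : ℝ, C' = Real.log K / 12 + C := ⟨_, rfl⟩
  have hev : ∀ᶠ H : ℕ in Filter.atTop, C' / μ ≤ Real.log (H : ℝ) :=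
    (Real.tendsto_log_atTop.comp tendsto_natCast_atTop_atTop).eventually_ge_atTop (C' / μ)
  obtain ⟨H₂, hH₂⟩ := Filter.eventually_atTop.1 hev
  refine ⟨max H₁ (max H₂ 1), fun H hH s hs hbad => ?_⟩
  have hHH₁ : H₁ ≤ H := le_trans (le_max_left _ _) hH
  have hHH₂ : H₂ ≤ H := le_trans (le_trans (le_max_left _ _) (le_max_right _ _)) hH
  have hH1 : 1 ≤ H := le_trans (le_trans (le_max_right _ _) (le_max_right _ _)) hH
  have hH1R : (1 : ℝ) ≤ (H : ℝ) := by exact_mod_cast hH1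
  have hHpos : (0 : ℝ) < (H : ℝ) := by linarith
  have hlogH : 0 ≤ Real.log (H : ℝ) := Real.log_nonneg hH1R
  refine hH₁ H hHH₁ s hs (fun x hx hgood => hbad x hx ⟨hgood.2, fun τ hτ => ?_⟩)
  have hxbox := hs hx
  unfold box at hxbox
  rw [Finset.mem_filter, Finset.mem_product, Finset.mem_Icc, Finset.mem_Icc] at hxbox
  have ha : |x.1| ≤ (H : ℤ) := abs_le.2 hxbox.1.1
  have hb : |x.2| ≤ (H : ℤ) := abs_le.2 hxbox.1.2
  have hAb := hv_bound (4 * k) A H x.1 x.2 ha hb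
  have hBb := hv_bound (6 * k) B H x.1 x.2 ha hb
  rw [← hMA] at hAb
  rw [← hMB] at hBb
  obtain ⟨a, hadef⟩ : ∃ a : ℤ, a = hv (4 * k) A x.1 x.2 := ⟨_, rfl⟩
  obtain ⟨b, hbdef⟩ : ∃ b : ℤ, b = hv (6 * k) B x.1 x.2 := ⟨_, rfl⟩
  rw [← hadef, ← hbdef] at hgood hτ ⊢
  rw [← hadef] at hAb
  rw [← hbdef] at hBb
  have hAR : |(a : ℝ)| ≤ (MA : ℝ) * (H : ℝ) ^ (4 * k) := by exact_mod_cast hAb
  have hBR : |(b : ℝ)| ≤ (MB : ℝ) * (H : ℝ) ^ (6 * k) := by exact_mod_cast hBb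
  have hA3 : |(a : ℝ)| ^ 3 ≤ (MA : ℝ) ^ 3 * (H : ℝ) ^ (12 * k) := by
    calc |(a : ℝ)| ^ 3 ≤ ((MA : ℝ) * (H : ℝ) ^ (4 * k)) ^ 3 :=
          pow_le_pow_left₀ (abs_nonneg _) hAR 3
      _ = (MA : ℝ) ^ 3 * (H : ℝ) ^ (12 * k) := by
          rw [mul_pow, ← pow_mul]
          congr 2
          ring
  have hB2 : |(b : ℝ)| ^ 2 ≤ (MB : ℝ) ^ 2 * (H : ℝ) ^ (12 * k) := by
    calc |(b : ℝ)| ^ 2 ≤ ((MB : ℝ) * (H : ℝ) ^ (6 * k)) ^ 2 :=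
          pow_le_pow_left₀ (abs_nonneg _) hBR 2
      _ = (MB : ℝ) ^ 2 * (H : ℝ) ^ (12 * k) := by
          rw [mul_pow, ← pow_mul]
          congr 2
          ring
  have hHk : (0 : ℝ) < (H : ℝ) ^ (12 * k) := by positivity
  have hMA3 : 0 ≤ (MA : ℝ) ^ 3 * (H : ℝ) ^ (12 * k) := by positivity
  have hMB2 : 0 ≤ (MB : ℝ) ^ 2 * (H : ℝ) ^ (12 * k) := by positivity
  have hmax : max (6912 * |(a : ℝ)| ^ 3) |4 * (a : ℝ) ^ 3 + 27 * (b : ℝ) ^ 2| ≤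
      K * (H : ℝ) ^ (12 * k) := by
    have hKe : K * (H : ℝ) ^ (12 * k) = 6912 * ((MA : ℝ) ^ 3 * (H : ℝ) ^ (12 * k)) +
        27 * ((MB : ℝ) ^ 2 * (H : ℝ) ^ (12 * k)) + (H : ℝ) ^ (12 * k) := by
      rw [hK]
      ring
    rw [hKe]
    refine max_le (by linarith) ?_
    have h1 : |4 * (a : ℝ) ^ 3 + 27 * (b : ℝ) ^ 2| ≤ 4 * |(a : ℝ)| ^ 3 + 27 * |(b : ℝ)| ^ 2 := by
      calc |4 * (a : ℝ) ^ 3 + 27 * (b : ℝ) ^ 2| ≤ |4 * (a : ℝ) ^ 3| + |27 * (b : ℝ) ^ 2| :=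
            abs_add_le _ _
        _ = 4 * |(a : ℝ)| ^ 3 + 27 * |(b : ℝ)| ^ 2 := by
            rw [abs_mul, abs_mul, abs_pow, abs_pow]
            norm_num
    linarith
  have hne : (4 * (a : ℝ) ^ 3 + 27 * (b : ℝ) ^ 2) ≠ 0 := by exact_mod_cast hgood.2
  have hmaxpos : 0 < max (6912 * |(a : ℝ)| ^ 3) |4 * (a : ℝ) ^ 3 + 27 * (b : ℝ) ^ 2| :=
    lt_of_lt_of_le (abs_pos.2 hne) (le_max_right _ _)
  have hlog : Real.log (max (6912 * |(a : ℝ)| ^ 3) |4 * (a : ℝ) ^ 3 + 27 * (b : ℝ) ^ 2|) ≤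
      Real.log K + 12 * k * Real.log H := by
    calc Real.log (max (6912 * |(a : ℝ)| ^ 3) |4 * (a : ℝ) ^ 3 + 27 * (b : ℝ) ^ 2|) ≤
          Real.log (K * (H : ℝ) ^ (12 * k)) := Real.log_le_log hmaxpos hmax
      _ = Real.log K + 12 * k * Real.log H := by
          rw [Real.log_mul hKpos.ne' hHk.ne', Real.log_pow]
          push_cast
          ring
  have h1 := hC a b hgood.2 τ hτ
  have h2 : C' ≤ μ * Real.log H := by
    have := hH₂ H hHH₂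
    rw [div_le_iff₀ hμ] at this
    linarith
  have h3 : ((2 * (k : ℝ) + 1) - ε) * Real.log H ≤ Real.log (cond6 a b) := by
    refine le_trans ?_ hgood.1
    refine mul_le_mul_of_nonneg_right ?_ hlogH
    have h4 : ((2 * k + 1 : ℕ) : ℝ) ≤ ((∑ P ∈ S, wt P A * P.natDegree : ℕ) : ℝ) := by
      exact_mod_cast hS3
    push_cast at h4 ⊢
    linarith
  have h5 : θ * (((2 * (k : ℝ) + 1) - ε) * Real.log H) ≤ θ * Real.log (cond6 a b) :=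
    mul_le_mul_of_nonneg_left h3 hθ0.le
  have h6 : θ * (((2 * (k : ℝ) + 1) - ε) * Real.log H) = μ * Real.log H + k * Real.log H := by
    rw [hμdef]
    ring
  rw [h6] at h5
  rw [hC'] at h2
  linarith

end Pool.Agent.W378.FR
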